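import Mathlib
import Pool.Agent.R738.HSp.Final

set_option autoImplicit false

/-!
# Laplacian subalgebras on compact homogeneous spaces are finitely generated

A compact homogeneous space is `M = G/H` with `G` its isometry group, a compact Lie group, i.e.
(Peter–Weyl) a closed subgroup of some `U(N)`, and `H` a closed subgroup of `G`, with a
`G`-invariant Riemannian metric.
-/

open Matrix
open scoped Matrix.Norms.Frobenius ContDiff

namespace Pool.Agent.Results.MP_517bc8_gt.FinitelyGenerated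

/-- complex `N × N` matrices -/
abbrev Mat (N : ℕ) := Matrix (Fin N) (Fin N) ℂ

variable {N k : ℕ}

/-- The Lie algebra of a subgroup `G` of `U(N)`: the matrices `X` with `exp (tX) ∈ G` for all real
`t`. -/
def LieAlg (G : Subgroup (unitaryGroup (Fin N) ℂ)) : Set (Mat N) :=
  {X | ∀ t : ℝ, ∃ u ∈ G, ((u : unitaryGroup (Fin N) ℂ) : Mat N) = NormedSpace.exp (t • X)}

/-- A `G`-invariant Riemannian metric on `G/H`, given by an orthonormal basis `X` of an
`Ad(H)`-invariant complement of the Lie algebra of `H` in the Lie algebra of `G`; the inner product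
is `Ad(H)`-invariant, i.e. the matrices of `Ad(h)`, `h ∈ H`, with respect to the basis are
orthogonal.  (As `H` is compact, all `G`-invariant metrics on `G/H` are given in this way.) -/
structure InvMetric (G H : Subgroup (unitaryGroup (Fin N) ℂ)) (k : ℕ) where
  /-- the orthonormal basis -/
  X : Fin k → Mat N
  mem : ∀ i, X i ∈ LieAlg G
  indep : LinearIndependent ℝ X
  disj : ∀ Y ∈ Submodule.span ℝ (Set.range X), Y ∈ LieAlg H → Y = 0
  sup : ∀ Z ∈ LieAlg G, ∃ Y ∈ Submodule.span ℝ (Set.range X), Z - Y ∈ LieAlg H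
  inv : ∀ h ∈ H, ∃ O ∈ Matrix.orthogonalGroup (Fin k) ℝ, ∀ j,
    (h : Mat N) * X j * star (h : Mat N) = ∑ i, O i j • X i

/-- The homogeneous space `G/H`. -/
abbrev HomSpace (G H : Subgroup (unitaryGroup (Fin N) ℂ)) : Type := ↥G ⧸ H.subgroupOf G

/-- The matrix of an element of `G`. -/
abbrev toMat {G : Subgroup (unitaryGroup (Fin N) ℂ)} (x : G) : Mat N :=
  ((x : unitaryGroup (Fin N) ℂ) : Mat N)

/-- The value at the matrix `x` of the Laplace–Beltrami operator `Δ f = - ∑ Xᵢ² f` of `(G/H, g)`,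
where `(Xᵢ f)(x) = d/dt f (x exp (t Xᵢ))` (compact groups are unimodular, so this is the
Laplace–Beltrami operator on the functions on `G/H`, lifted to `G`). -/
noncomputable def laplacian {G H : Subgroup (unitaryGroup (Fin N) ℂ)} (g : InvMetric G H k)
    (f : Mat N → ℝ) (x : Mat N) : ℝ :=
  -∑ i, iteratedDeriv 2 (fun t : ℝ => f (x * NormedSpace.exp (t • g.X i))) 0

/-- `u` is a smooth function on `G/H` with `Δ u = lam u`. The lift of `u` to `G` is the restriction
of a smooth function `f` of the matrix. -/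
def IsEigenfunction {G H : Subgroup (unitaryGroup (Fin N) ℂ)} (g : InvMetric G H k) (lam : ℝ)
    (u : HomSpace G H → ℝ) : Prop :=
  ∃ f : Mat N → ℝ, ContDiff ℝ ∞ f ∧ (∀ x : G, f (toMat x) = u (QuotientGroup.mk x)) ∧
    ∀ x : G, laplacian g f (toMat x) = lam * f (toMat x)

/-- A Laplacian subalgebra of `ℝ[M]`: a subalgebra `A` of functions on `M = G/H` with
`A = ⨁ (A ∩ E_lam)`, i.e. every element of `A` is a finite sum of eigenfunctions that lie
in `A` (so that in particular `A ⊆ ℝ[M]`). -/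
def IsLaplacianSubalgebra {G H : Subgroup (unitaryGroup (Fin N) ℂ)} (g : InvMetric G H k)
    (A : Subalgebra ℝ (HomSpace G H → ℝ)) : Prop :=
  ∀ a ∈ A, ∃ (n : ℕ) (u : Fin n → HomSpace G H → ℝ),
    (∀ i, u i ∈ A ∧ ∃ lam : ℝ, IsEigenfunction g lam (u i)) ∧ a = ∑ i, u i

open Pool.Agent.W973.EGSR Pool.Agent.R738.HSp

/-- translation of the metric -/
def conv {G H : Subgroup (unitaryGroup (Fin N) ℂ)} (g : InvMetric G H k) :
    Pool.Agent.Y896.HS.InvMetric G H k :=
  ⟨g.X, g.mem, g.indep, g.disj, g.sup, g.inv⟩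

/-- pulling back functions from `G/H` to `G` -/
def pull (G H : Subgroup (unitaryGroup (Fin N) ℂ)) : (HomSpace G H → ℝ) →ₐ[ℝ] (G → ℝ) where
  toFun u := fun x => u (QuotientGroup.mk x)
  map_one' := rfl
  map_mul' _ _ := rfl
  map_zero' := rfl
  map_add' _ _ := rfl
  commutes' _ := rfl

theorem pull_inj (G H : Subgroup (unitaryGroup (Fin N) ℂ)) : Function.Injective (pull G H) := by
  intro u v h
  funext m
  obtain ⟨x, rfl⟩ := QuotientGroup.mk_surjective m
  exact congrFun h x

theorem pull_eig {G H : Subgroup (unitaryGroup (Fin N) ℂ)} (g : InvMetric G H k) (lam : ℝ)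
    {u : HomSpace G H → ℝ} (hu : IsEigenfunction g lam u) : pull G H u ∈ Eg (conv g) lam := by
  obtain ⟨f, hf, hfu, hfl⟩ := hu
  refine ⟨⟨f, hf, fun x => (hfu x).symm⟩, fun x h hh => ?_, ?_⟩
  · change u (QuotientGroup.mk (x * h)) = u (QuotientGroup.mk x)
    congr 1
    rw [QuotientGroup.eq, _root_.mul_inv_rev, inv_mul_cancel_right]
    exact (H.subgroupOf G).inv_mem hh
  · funext x
    have h2 := lap_formula (conv g) hf (u := pull G H u) (fun x => (hfu x).symm) x
    exact h2.symm.trans ((hfl x).trans (by rw [hfu]; rfl))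

/-- **Theorem.** Let `G` be a compact Lie group (a closed subgroup of `U(N)`), `H` a closed subgroup
of `G`, and `g` a `G`-invariant Riemannian metric on `M = G/H`. Then every Laplacian subalgebra of
`ℝ[M]` is finitely generated. -/
theorem result : ∀ (N k : ℕ) (G H : Subgroup (unitaryGroup (Fin N) ℂ)),
    IsClosed (G : Set (unitaryGroup (Fin N) ℂ)) → IsClosed (H : Set (unitaryGroup (Fin N) ℂ)) →
    H ≤ G → ∀ (g : InvMetric G H k) (A : Subalgebra ℝ (HomSpace G H → ℝ)),
    IsLaplacianSubalgebra g A → A.FG := by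
  intro N k G H hG hH hHG g A hA
  refine Subalgebra.fg_of_fg_map _ (pull G H) (pull_inj G H) ?_
  refine fg hG hH hHG (conv g) _ ?_
  rintro _ ⟨a, ha, rfl⟩
  obtain ⟨n, u, hu, rfl⟩ := hA a ha
  rw [map_sum]
  refine Submodule.sum_mem _ fun i _ => ?_
  obtain ⟨hui, lam, hlam⟩ := hu i
  exact Submodule.mem_iSup_of_mem lam ⟨pull_eig g lam hlam, u i, hui, rfl⟩

end Pool.Agent.Results.MP_517bc8_gt.FinitelyGenerated
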